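import Mathlib
import Pool.Agent.V11268.AE.A6
import Pool.Agent.V11268.AE.A8

/-!
# No surround count forces a tiling, already for three prototiles and patches with one tile

The plane is modelled by `ℂ` with its Euclidean distance.

For every `k` there are three pairwise non-congruent closed discs which do not admit a tiling of the
plane although every single tile can be surrounded `k` times.  The tiles are marked polyominoes: `P` is
a row of `2 M` cells with a cell hanging below its first cell, `Q` is a row of `2 M - 1` cells with a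
cell on top of its cell number `M`, and `F` is a single cell.  All the edges are replaced by small
quartic arcs, of which four different sizes occur.  The marks force every `P` to be continued to an
infinite row of period `2 M`, and every `Q` to be continued to an infinite row of period `2 M - 1`, and
every tile to be close to such a row of tiles `P` and a parallel adjacent row of tiles `Q`; since the
periods are coprime, the hanging cell of some `P` then meets the top cell of some `Q`.  But this happens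
only at a distance of about `M` tiles.
-/

set_option autoImplicit false

namespace Pool.Agent.Results.MP_ae4adf_co.ThreePrototiles

open Set Pool.Agent.V11268.AE

/-- A closed topological disc in the plane. -/
def IsDisc (S : Set ℂ) : Prop := Nonempty (S ≃ₜ Metric.closedBall (0 : ℂ) 1)

/-- A tile from `𝒮`: the image of a member of `𝒮` under an isometry of the plane. -/
def IsTile (𝒮 : Set (Set ℂ)) (T : Set ℂ) : Prop := ∃ X ∈ 𝒮, ∃ g : ℂ ≃ᵢ ℂ, g '' X = T

/-- Distinct members have disjoint interiors. -/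
def NonOverlapping (𝒜 : Set (Set ℂ)) : Prop :=
  ∀ T ∈ 𝒜, ∀ T' ∈ 𝒜, T ≠ T' → Disjoint (interior T) (interior T')

/-- A patch: a finite collection of tiles from `𝒮` with pairwise disjoint interiors whose union is a
closed topological disc. -/
def IsPatch (𝒮 𝒜 : Set (Set ℂ)) : Prop :=
  𝒜.Finite ∧ (∀ T ∈ 𝒜, IsTile 𝒮 T) ∧ NonOverlapping 𝒜 ∧ IsDisc (⋃₀ 𝒜)

/-- The patch `ℬ` surrounds the patch `𝒜`. -/
def Surrounds (ℬ 𝒜 : Set (Set ℂ)) : Prop := 𝒜 ⊆ ℬ ∧ ⋃₀ 𝒜 ⊆ interior (⋃₀ ℬ)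

/-- The patch `𝒜` can be surrounded `r` times. -/
def CanBeSurrounded (𝒮 𝒜 : Set (Set ℂ)) (r : ℕ) : Prop :=
  ∃ F : ℕ → Set (Set ℂ), F 0 = 𝒜 ∧ (∀ i ≤ r, IsPatch 𝒮 (F i)) ∧ ∀ i < r, Surrounds (F (i + 1)) (F i)

/-- `𝒮` admits a tiling of the plane. -/
def AdmitsTiling (𝒮 : Set (Set ℂ)) : Prop :=
  ∃ 𝒯 : Set (Set ℂ), 𝒯.Countable ∧ (∀ T ∈ 𝒯, IsTile 𝒮 T) ∧ NonOverlapping 𝒯 ∧ ⋃₀ 𝒯 = univ

/-! ### The patches -/

/-- The set of the three prototiles. -/
def protos (M : ℤ) : Set (Set ℂ) := range (tile M)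

theorem isPatch_moved {M i : ℤ} (hi : 0 ≤ i) (hM : 3 * i + 2 ≤ M) (h : ℂ ≃ᵢ ℂ) :
    IsPatch (protos M) ((fun T => h '' T) '' fam M i) := by
  refine ⟨(fam_finite hi hM).image _, ?_, ?_, ?_⟩
  · rintro _ ⟨T, ⟨t, a, b, -, rfl⟩, rfl⟩
    refine ⟨tile M t, ⟨t, rfl⟩, (IsometryEquiv.addRight (vec a (3 * b))).trans h, ?_⟩
    simp only [plc_eq]
    rw [image_image]
    rfl
  · rintro _ ⟨T, hT, rfl⟩ _ ⟨T', hT', rfl⟩ hne
    have hne' : T ≠ T' := fun he => hne (by rw [he])
    have e : ∀ T : Set ℂ, interior (h '' T) = h '' interior T :=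
      fun T => (h.toHomeomorph.image_interior T).symm
    simp only [e]
    exact (fam_disjoint hM T hT T' hT' hne').image h.injective.injOn (subset_univ _)
      (subset_univ _)
  · have e : ⋃₀ ((fun T => h '' T) '' fam M i) = h '' ⋃₀ fam M i := by
      rw [sUnion_image, sUnion_eq_biUnion, image_iUnion₂]
    rw [e]
    exact disc_image h.toHomeomorph (fam_disc hi hM)

theorem surrounds_moved {M i : ℤ} (hi : 0 ≤ i) (hM : 3 * (i + 1) + 2 ≤ M) (h : ℂ ≃ᵢ ℂ) :
    Surrounds ((fun T => h '' T) '' fam M (i + 1)) ((fun T => h '' T) '' fam M i) := by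
  refine ⟨image_mono (fam_mono hi (by omega)), ?_⟩
  have e : ∀ i, ⋃₀ ((fun T => h '' T) '' fam M i) = h '' ⋃₀ fam M i := by
    intro i
    rw [sUnion_image, sUnion_eq_biUnion, image_iUnion₂]
  have e' : ∀ T : Set ℂ, interior (h '' T) = h '' interior T :=
    fun T => (h.toHomeomorph.image_interior T).symm
  rw [e, e, e']
  exact image_mono (fam_interior hi hM)

theorem single {M : ℤ} {k : ℕ} (hM : 3 * (k : ℤ) + 5 ≤ M) {T : Set ℂ} (hT : IsTile (protos M) T) :
    CanBeSurrounded (protos M) {T} k := by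
  obtain ⟨_, ⟨t, rfl⟩, g, rfl⟩ := hT
  obtain ⟨a, ha⟩ := exists_fam_zero (M := M) (by omega) t
  set h : ℂ ≃ᵢ ℂ := (IsometryEquiv.addRight (vec a (3 * 0))).symm.trans g with hh
  have hplc : h '' plc M t a 0 = g '' tile M t := by
    rw [plc_eq, image_image]
    apply image_congr
    intro z _
    rw [hh]
    simp
  have hmem : g '' tile M t ∈ (fun T => h '' T) '' fam M 0 := ⟨_, ha, hplc⟩
  refine ⟨fun i => if i = 0 then {g '' tile M t} else (fun T => h '' T) '' fam M i, by simp, ?_, ?_⟩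
  · intro i hi
    by_cases h0 : i = 0
    · subst h0
      simp only [if_true]
      refine ⟨finite_singleton _, ?_, ?_, ?_⟩
      · rintro T rfl
        exact ⟨tile M t, ⟨t, rfl⟩, g, rfl⟩
      · rintro T rfl T' rfl hne
        exact absurd rfl hne
      · rw [sUnion_singleton]
        exact disc_image g.toHomeomorph (disc_tile (by omega) t)
    · simp only [h0, if_false]
      exact isPatch_moved (by omega) (by omega) h
  · intro i hi
    by_cases h0 : i = 0
    · subst h0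
      have hs := surrounds_moved (M := M) (i := 0) le_rfl (by omega) h
      have h1 : ((0 + 1 : ℕ) : ℤ) = 0 + 1 := by norm_num
      simp only [if_true, Nat.add_eq_zero_iff, one_ne_zero, and_false, if_false, h1]
      refine ⟨?_, ?_⟩
      · rintro T rfl
        exact hs.1 hmem
      · rw [sUnion_singleton]
        exact (subset_sUnion_of_mem hmem).trans hs.2
    · have h1 : ((i + 1 : ℕ) : ℤ) = (i : ℤ) + 1 := by push_cast; ring
      simp only [h0, if_false, Nat.add_eq_zero_iff, one_ne_zero, and_false, h1]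
      exact surrounds_moved (by omega) (by omega) h

theorem tile_injective {M : ℤ} (hM : 1 < M) : Function.Injective (tile M) := by
  intro t t' he
  by_contra hne
  exact noncong hM hne (IsometryEquiv.refl ℂ) (by
    rw [← he]
    exact image_id _)

theorem encard_protos {M : ℤ} (hM : 1 < M) : (protos M).encard = 3 := by
  rw [protos, ← image_univ, (tile_injective hM).encard_image, encard_univ, ENat.card_eq_coe_fintype_card]
  rfl

theorem not_tiling {M : ℤ} (hM : 1 < M) : ¬ AdmitsTiling (protos M) := by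
  rintro ⟨𝒯, -, h1, h2, h3⟩
  refine no_tiling (M := M) (𝒯 := 𝒯) hM ⟨?_, h2, h3⟩
  intro T hT
  obtain ⟨_, ⟨t, rfl⟩, g, hg⟩ := h1 T hT
  exact ⟨t, g, hg⟩

theorem three (k : ℕ) : ∃ 𝒮 : Set (Set ℂ), 𝒮.encard = 3 ∧ (∀ X ∈ 𝒮, IsDisc X) ∧
    (∀ X ∈ 𝒮, ∀ Y ∈ 𝒮, X ≠ Y → ¬ ∃ g : ℂ ≃ᵢ ℂ, g '' X = Y) ∧
    (∃ 𝒜, IsPatch 𝒮 𝒜 ∧ 𝒜.encard = 1) ∧
    (∀ 𝒜, IsPatch 𝒮 𝒜 → 𝒜.encard = 1 → CanBeSurrounded 𝒮 𝒜 k) ∧
    ¬ AdmitsTiling 𝒮 := by
  set M : ℤ := 3 * (k : ℤ) + 5 with hM
  have hM1 : 1 < M := by omega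
  have hsingle : ∀ T, IsTile (protos M) T → CanBeSurrounded (protos M) {T} k :=
    fun T hT => single hM.ge hT
  refine ⟨protos M, encard_protos hM1, ?_, ?_, ?_, ?_, not_tiling hM1⟩
  · rintro _ ⟨t, rfl⟩
    exact disc_tile hM1 t
  · rintro _ ⟨t, rfl⟩ _ ⟨t', rfl⟩ hne ⟨g, hg⟩
    exact noncong hM1 (fun he => hne (by rw [he])) g hg
  · obtain ⟨F, h0, h1, -⟩ := hsingle (tile M Ty.P) ⟨_, ⟨Ty.P, rfl⟩, IsometryEquiv.refl ℂ, image_id _⟩
    refine ⟨{tile M Ty.P}, ?_, encard_singleton _⟩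
    rw [← h0]
    exact h1 0 (Nat.zero_le _)
  · intro 𝒜 hA hcard
    obtain ⟨T, rfl⟩ := encard_eq_one.1 hcard
    exact hsingle T (hA.2.1 T rfl)

/-- For every `k` there is a set of three pairwise non-congruent prototiles (closed topological discs)
which admits no tiling of the plane although every patch with exactly one tile (and there is one) can be
surrounded `k` times.  Consequently there is no function `f` as in the question. -/
theorem result :
    (∀ k : ℕ, ∃ 𝒮 : Set (Set ℂ), 𝒮.encard = 3 ∧ (∀ X ∈ 𝒮, IsDisc X) ∧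
      (∀ X ∈ 𝒮, ∀ Y ∈ 𝒮, X ≠ Y → ¬ ∃ g : ℂ ≃ᵢ ℂ, g '' X = Y) ∧
      (∃ 𝒜, IsPatch 𝒮 𝒜 ∧ 𝒜.encard = 1) ∧
      (∀ 𝒜, IsPatch 𝒮 𝒜 → 𝒜.encard = 1 → CanBeSurrounded 𝒮 𝒜 k) ∧
      ¬ AdmitsTiling 𝒮) ∧
    ¬ ∃ f : ℕ → ℕ → ℕ, ∀ n m : ℕ, 0 < n → 0 < m → ∀ 𝒮 : Set (Set ℂ), 𝒮.encard = n →
      (∀ X ∈ 𝒮, IsDisc X) → (∃ 𝒜, IsPatch 𝒮 𝒜 ∧ 𝒜.encard = m) →
      (∀ 𝒜, IsPatch 𝒮 𝒜 → 𝒜.encard = m → CanBeSurrounded 𝒮 𝒜 (f n m)) → AdmitsTiling 𝒮 := by
  refine ⟨three, ?_⟩
  rintro ⟨f, hf⟩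
  obtain ⟨𝒮, h1, h2, -, h3, h4, h5⟩ := three (f 3 1)
  exact h5 (hf 3 1 (by norm_num) (by norm_num) 𝒮 (by rw [h1]; rfl) h2
    (by simpa using h3) (by simpa using h4))

end Pool.Agent.Results.MP_ae4adf_co.ThreePrototiles
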